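import Pool.Agent.P.MP_e4219a_lc.All

namespace Pool.Agent.Results.MP_e4219a_lc.UniversalQ

open Pool.Agent.P.MP_e4219a_lc

/-- In every number field the rational numbers are defined by one universal formula without
parameters. -/
theorem result :
    ∀ (K : Type) [Field K] [NumberField K],
      ∃ (n : ℕ) (P : MvPolynomial (Option (Fin n)) ℤ), ∀ a : K,
        (∃ q : ℚ, a = (q : K)) ↔
          ∀ y : Fin n → K, MvPolynomial.aeval (fun o => Option.elim o a y) P ≠ 0 :=
  fun K _ _ => top_rat t_rk t_rat t_td t_cert p_weil p_elim K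

end Pool.Agent.Results.MP_e4219a_lc.UniversalQ
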